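import Pool.Agent.Q30.FJ.Crit

/-!
# Kernels with many solvable quotients
-/

set_option autoImplicit false

namespace Q181.MCL

open Pool.Agent.Y110.FJ (ClosedE)
open Pool.Agent.Y462.SS (Closed)

variable {C : ∀ (G : Type) [Group G], Prop}

/-- extensions with solvable kernel -/
theorem ext_sol (hC : ClosedE C) (hsol : ∀ (G : Type) [Group G], Group.IsSolvable G → C G)
    {G Q : Type} [Group G] [Group Q] (π : G →* Q) (hk : Group.IsSolvable π.ker) (hQ : C Q) :
    C G := by
  refine Pool.Agent.Y529.FJ.t_ext C hC G π.ker (hsol _ hk)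
    (hC.base.of_injective _ _ (QuotientGroup.kerLift π) (QuotientGroup.kerLift_injective _) hQ) ?_
  intro g _
  apply hsol
  have h1 : ∀ x y : (π.comp (π.ker ⊔ Subgroup.zpowers g).subtype).range, x * y = y * x := by
    have h2 : ∀ x : ↥(π.ker ⊔ Subgroup.zpowers g), π x ∈ Subgroup.zpowers (π g) := by
      rintro ⟨x, hx⟩
      show x ∈ (Subgroup.zpowers (π g)).comap π
      have h3 : π.ker ⊔ Subgroup.zpowers g ≤ (Subgroup.zpowers (π g)).comap π := by
        rw [sup_le_iff]
        refine ⟨fun y hy => ?_, ?_⟩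
        · have hy' : π y = 1 := hy
          show π y ∈ Subgroup.zpowers (π g)
          rw [hy']
          exact Subgroup.one_mem _
        · rw [Subgroup.zpowers_le]
          exact Subgroup.mem_zpowers _
      exact h3 hx
    rintro ⟨_, x, rfl⟩ ⟨_, y, rfl⟩
    apply Subtype.ext
    show π x * π y = π y * π x
    obtain ⟨k, hk⟩ := Subgroup.mem_zpowers_iff.1 (h2 x)
    obtain ⟨l, hl⟩ := Subgroup.mem_zpowers_iff.1 (h2 y)
    rw [← hk, ← hl, ← zpow_add, ← zpow_add, add_comm]
  have h2 : Group.IsSolvable (π.comp (π.ker ⊔ Subgroup.zpowers g).subtype).range :=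
    Group.isSolvable_of_comm h1
  refine Group.isSolvable_of_ker_le_range (Subgroup.inclusion
    (le_sup_left : π.ker ≤ π.ker ⊔ Subgroup.zpowers g))
    (π.comp (π.ker ⊔ Subgroup.zpowers g).subtype).rangeRestrict ?_
  intro x hx
  rw [MonoidHom.ker_rangeRestrict] at hx
  exact ⟨⟨x.1, hx⟩, rfl⟩

theorem pi_solvable (X H : Type) [Group H] [Group.IsSolvable H] : Group.IsSolvable (X → H) := by
  obtain ⟨n, hn⟩ := (Group.isSolvable_def H).1 inferInstance
  refine (Group.isSolvable_def _).2 ⟨n, ?_⟩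
  rw [eq_bot_iff]
  intro f hf
  rw [Subgroup.mem_bot]
  funext x
  have h1 : Pi.evalMonoidHom (fun _ : X => H) x f ∈ derivedSeries H n :=
    map_derivedSeries_le_derivedSeries (Pi.evalMonoidHom (fun _ : X => H) x) n ⟨f, hf, rfl⟩
  rw [hn] at h1
  exact h1

/-- the unrestricted wreath product with the infinite cyclic group -/
abbrev UW (H : Type) [Group H] : Type :=
  (Multiplicative ℤ → H) ⋊[(mulAutArrow : Multiplicative ℤ →* MulAut (Multiplicative ℤ → H))]
    Multiplicative ℤ

theorem sd_solvable (N Q : Type) [Group N] [Group Q] (α : Q →* MulAut N) [Group.IsSolvable N]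
    [Group.IsSolvable Q] : Group.IsSolvable (N ⋊[α] Q) := by
  refine Group.isSolvable_of_ker_le_range (SemidirectProduct.inl : N →* N ⋊[α] Q)
    SemidirectProduct.rightHom ?_
  rw [SemidirectProduct.range_inl_eq_ker_rightHom]

theorem uw_solvable (H : Type) [Group H] [Group.IsSolvable H] : Group.IsSolvable (UW H) := by
  have := pi_solvable (Multiplicative ℤ) H
  exact sd_solvable _ _ _

/-- **extensions with a kernel which has enough solvable quotients** -/
theorem loc_sol (hC : ClosedE C) (hsol : ∀ (G : Type) [Group G], Group.IsSolvable G → C G)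
    (G : Type) [Group G] (N : Subgroup G) [N.Normal] (hQ : C (G ⧸ N))
    (h : ∀ E : Set G, E.Finite → E ⊆ N → ∃ (H : Type) (_ : Group H) (φ : N →* H),
      Group.IsSolvable H ∧ ∀ x : N, (x : G) ∈ Subgroup.closure E → φ x = 1 → x = 1) : C G := by
  refine Q30.FJ.crit C hC G N hQ ?_
  intro g E hE hEN
  have hE' : E ∪ (fun x => g * x * g⁻¹) '' E ⊆ N := by
    rintro x (hx | ⟨x, hx, rfl⟩)
    · exact hEN hx
    · exact Subgroup.Normal.conj_mem inferInstance x (hEN hx) g
  have hle : Subgroup.closure (E ∪ (fun x => g * x * g⁻¹) '' E) ≤ N :=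
    (Subgroup.closure_le _).2 hE'
  obtain ⟨H, _, φ, hH, hφ⟩ := h _ (hE.union (hE.image _)) hE'
  have hcn : ∀ (n : Multiplicative ℤ) (x : N),
      g ^ (-(Multiplicative.toAdd n)) * (x : G) * g ^ (Multiplicative.toAdd n) ∈ N := by
    intro n x
    have h1 := Subgroup.Normal.conj_mem (inferInstance : N.Normal) x x.2
      (g ^ (-(Multiplicative.toAdd n)))
    rwa [← zpow_neg, neg_neg] at h1
  obtain ⟨F, hF⟩ : ∃ F : N →* (Multiplicative ℤ → H), ∀ x n, F x n = φ ⟨_, hcn n x⟩ := by
    refine ⟨MonoidHom.mk' (fun x n => φ ⟨_, hcn n x⟩) ?_, fun x n => rfl⟩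
    intro x y
    funext n
    rw [Pi.mul_apply, ← map_mul]
    congr 1
    apply Subtype.ext
    show g ^ (-(Multiplicative.toAdd n)) * ((x : G) * (y : G)) * g ^ (Multiplicative.toAdd n) =
      (g ^ (-(Multiplicative.toAdd n)) * (x : G) * g ^ (Multiplicative.toAdd n)) *
      (g ^ (-(Multiplicative.toAdd n)) * (y : G) * g ^ (Multiplicative.toAdd n))
    rw [zpow_neg]
    group
  refine ⟨UW H, inferInstance, (SemidirectProduct.inl.comp F).comp (Subgroup.inclusion hle),
    SemidirectProduct.inr (Multiplicative.ofAdd (1 : ℤ)), hsol _ (uw_solvable H), ?_, ?_⟩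
  · rw [injective_iff_map_eq_one]
    intro x hx
    have h1 : F (Subgroup.inclusion hle x) = 1 := SemidirectProduct.inl_injective
      (hx.trans (map_one _).symm)
    have h2 := congrFun h1 1
    rw [hF] at h2
    have h3 : (⟨_, hcn 1 (Subgroup.inclusion hle x)⟩ : N) = Subgroup.inclusion hle x := by
      apply Subtype.ext
      simp
    rw [h3] at h2
    have h4 := hφ _ x.2 h2
    exact Subgroup.inclusion_injective hle (h4.trans (map_one _).symm)
  · intro x y _ hy
    show SemidirectProduct.inl (F (Subgroup.inclusion hle y)) =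
      SemidirectProduct.inr (Multiplicative.ofAdd (1 : ℤ)) *
        SemidirectProduct.inl (F (Subgroup.inclusion hle x)) *
        (SemidirectProduct.inr (Multiplicative.ofAdd (1 : ℤ)))⁻¹
    rw [← map_inv, ← SemidirectProduct.inl_aut]
    congr 1
    funext n
    show _ = F (Subgroup.inclusion hle x) ((Multiplicative.ofAdd (1 : ℤ))⁻¹ • n)
    rw [hF, hF]
    congr 1
    apply Subtype.ext
    show g ^ (-(Multiplicative.toAdd n)) * (y : G) * g ^ (Multiplicative.toAdd n) =
      g ^ (-(Multiplicative.toAdd ((Multiplicative.ofAdd (1 : ℤ))⁻¹ • n))) * (x : G) *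
        g ^ (Multiplicative.toAdd ((Multiplicative.ofAdd (1 : ℤ))⁻¹ • n))
    have h5 : Multiplicative.toAdd ((Multiplicative.ofAdd (1 : ℤ))⁻¹ • n) =
        Multiplicative.toAdd n - 1 := by
      rw [smul_eq_mul, toAdd_mul, toAdd_inv, toAdd_ofAdd]
      ring
    rw [h5, hy, neg_sub, zpow_sub, zpow_sub, zpow_one, zpow_neg]
    group

end Q181.MCL
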