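import Pool.Agent.Q181.MCL.Ext
import Pool.Agent.Q30.FJ.Nov

/-!
# Kernels with many virtually solvable quotients
-/

set_option autoImplicit false

namespace Q181.MCL

open Pool.Agent.Y110.FJ (ClosedE Realized)
open Pool.Agent.Y462.SS (Closed)
open Q30.FJ (ClosedOver)

variable {C D : ∀ (G : Type) [Group G], Prop}

/-- virtually solvable groups -/
def VSol (H : Type) [Group H] : Prop := ∃ S : Subgroup H, S.FiniteIndex ∧ Group.IsSolvable S

/-- the unrestricted wreath product of a finite group with `ℤ` -/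
theorem uw_finite (hC : ClosedE C) (F : Type) [Group F] (hF : Finite F) : C (UW F) := by
  classical
  let ρ : UW F →* Multiplicative ℤ := SemidirectProduct.rightHom
  refine Q30.FJ.crit_three hC (UW F) ρ.ker
    (hC.base.of_injective _ _ (QuotientGroup.kerLift ρ) (QuotientGroup.kerLift_injective ρ)
      hC.base.int) ?_
  intro g E hE hEN
  right
  right
  have hE' : (E ∪ (fun x => g * x * g⁻¹) '' E).Finite := hE.union (hE.image _)
  have hle : E ∪ (fun x => g * x * g⁻¹) '' E ⊆ ρ.ker := by
    rintro x (hx | ⟨x, hx, rfl⟩)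
    · exact hEN hx
    · exact Subgroup.Normal.conj_mem inferInstance x (hEN hx) g
  -- the preimage in the base
  let s : Finset (Multiplicative ℤ → F) := (hE'.image (fun x : UW F => x.left)).toFinset
  have hfin := Pool.Agent.Y430.SS.t_pow F (Multiplicative ℤ) hF s
  show Finite ↥(Subgroup.closure (E ∪ (fun x => g * x * g⁻¹) '' E))
  have hsub : Subgroup.closure (E ∪ (fun x => g * x * g⁻¹) '' E) ≤
      (Subgroup.closure (s : Set (Multiplicative ℤ → F))).map SemidirectProduct.inl := by
    rw [MonoidHom.map_closure, Subgroup.closure_le]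
    intro x hx
    refine Subgroup.subset_closure ⟨x.left, ?_, ?_⟩
    · rw [Set.Finite.coe_toFinset]
      exact ⟨x, hx, rfl⟩
    · have h1 : x.right = 1 := hle hx
      conv_rhs => rw [← SemidirectProduct.inl_left_mul_inr_right x]
      rw [h1, map_one, mul_one]
  have hfin2 : Finite ↥((Subgroup.closure (s : Set (Multiplicative ℤ → F))).map
      (SemidirectProduct.inl : (Multiplicative ℤ → F) →* UW F)) := by
    refine Finite.of_surjective (fun x : Subgroup.closure (s : Set (Multiplicative ℤ → F)) =>
      (⟨SemidirectProduct.inl x.1, ⟨x.1, x.2, rfl⟩⟩ : ↥((Subgroup.closure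
        (s : Set (Multiplicative ℤ → F))).map
        (SemidirectProduct.inl : (Multiplicative ℤ → F) →* UW F)))) ?_
    rintro ⟨_, x, hx, rfl⟩
    exact ⟨⟨x, hx⟩, rfl⟩
  exact Finite.of_injective (Subgroup.inclusion hsub) (Subgroup.inclusion_injective hsub)

/-- functoriality -/
def uwMap {H F : Type} [Group H] [Group F] (q : H →* F) : UW H →* UW F :=
  MonoidHom.mk' (fun p => ⟨fun n => q (p.left n), p.right⟩) (by
    intro a b
    apply SemidirectProduct.ext
    · funext n
      show q (a.left n * b.left (a.right⁻¹ * n)) = q (a.left n) * q (b.left (a.right⁻¹ * n))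
      exact map_mul _ _ _
    · rfl)

/-- the unrestricted wreath product of a virtually solvable group with `ℤ` -/
theorem uw_vsol (hC : ClosedE C) (hsol : ∀ (G : Type) [Group G], Group.IsSolvable G → C G)
    (H : Type) [Group H] (hH : VSol H) : C (UW H) := by
  obtain ⟨S, hS, hsS⟩ := hH
  have hcore : Group.IsSolvable S.normalCore :=
    Group.isSolvable_of_isSolvable_injective (f := Subgroup.inclusion S.normalCore_le)
      (Subgroup.inclusion_injective S.normalCore_le)
  have hfin : Finite (H ⧸ S.normalCore) := inferInstance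
  let q : H →* H ⧸ S.normalCore := QuotientGroup.mk' S.normalCore
  refine ext_sol hC hsol (uwMap q) ?_ (uw_finite hC _ hfin)
  have h1 : Group.IsSolvable (Multiplicative ℤ → S.normalCore) := pi_solvable _ _
  have h2 : ∀ p : (uwMap q).ker, p.1.right = 1 ∧ ∀ n, p.1.left n ∈ S.normalCore := by
    rintro ⟨p, hp⟩
    have h3 : uwMap q p = 1 := hp
    refine ⟨congrArg (fun z : UW (H ⧸ S.normalCore) => z.right) h3, fun n => ?_⟩
    have h4 : q (p.left n) = 1 := congrArg (fun z : UW (H ⧸ S.normalCore) => z.left n) h3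
    exact (QuotientGroup.eq_one_iff _).1 h4
  refine Group.isSolvable_of_isSolvable_injective (f := (MonoidHom.mk' (fun p : (uwMap q).ker =>
    (fun n => ⟨p.1.left n, (h2 p).2 n⟩ : Multiplicative ℤ → S.normalCore)) ?_)) ?_
  · intro p r
    funext n
    apply Subtype.ext
    show (p.1 * r.1).left n = p.1.left n * r.1.left n
    have h3 : (p.1 * r.1).left n = p.1.left n * r.1.left ((p.1.right)⁻¹ * n) := rfl
    rw [h3, (h2 p).1, inv_one, one_mul]
  · intro p r hpr
    apply Subtype.ext
    apply SemidirectProduct.ext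
    · funext n
      exact congrArg Subtype.val (congrFun hpr n)
    · rw [(h2 p).1, (h2 r).1]

/-- **extensions with a kernel which has enough homomorphisms to virtually solvable groups** -/
theorem loc_over (hC : ClosedE C) (hD : ClosedOver C D)
    (hsol : ∀ (G : Type) [Group G], Group.IsSolvable G → C G)
    (G : Type) [Group G] (N : Subgroup G) [N.Normal] (hQ : D (G ⧸ N))
    (h : ∀ (g : G) (E : Set G), E.Finite → E ⊆ N → ∃ M : Subgroup G, E ⊆ M ∧
      (∀ x, x ∈ M ↔ g * x * g⁻¹ ∈ M) ∧ ∃ (H : Type) (_ : Group H) (φ : M →* H),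
      (VSol H ∨ C (UW H)) ∧ ∀ x : M, (x : G) ∈ Subgroup.closure E → φ x = 1 → x = 1) : D G := by
  refine Q30.FJ.crit_over hC hD G N hQ ?_
  intro g E hE hEN
  have hE' : E ∪ (fun x => g * x * g⁻¹) '' E ⊆ N := by
    rintro x (hx | ⟨x, hx, rfl⟩)
    · exact hEN hx
    · exact Subgroup.Normal.conj_mem inferInstance x (hEN hx) g
  obtain ⟨M, hEM, hMg, H, _, φ, hH, hφ⟩ := h g _ (hE.union (hE.image _)) hE'
  have hUW : C (UW H) := by
    rcases hH with hH | hH
    · exact uw_vsol hC hsol H hH
    · exact hH
  have hle : Subgroup.closure (E ∪ (fun x => g * x * g⁻¹) '' E) ≤ M :=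
    (Subgroup.closure_le _).2 hEM
  have hzp : ∀ (n : ℤ) (x : G), x ∈ M → g ^ (-n) * x * g ^ n ∈ M := by
    have hnat : ∀ (n : ℕ) (x : G), x ∈ M → g ^ (-(n : ℤ)) * x * g ^ (n : ℤ) ∈ M := by
      intro n
      induction n with
      | zero => intro x hx; simpa using hx
      | succ n ih =>
        intro x hx
        rw [hMg]
        have e1 : g * (g ^ (-((n + 1 : ℕ) : ℤ)) * x * g ^ ((n + 1 : ℕ) : ℤ)) * g⁻¹ =
            g ^ (-(n : ℤ)) * x * g ^ (n : ℤ) := by
          push_cast
          rw [neg_add, zpow_add, zpow_add, zpow_neg_one, zpow_one]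
          have e2 : g ^ (-(n : ℤ)) * g⁻¹ = g⁻¹ * g ^ (-(n : ℤ)) := by
            rw [← zpow_neg_one, ← zpow_add, ← zpow_add, add_comm]
          rw [e2]
          group
        rw [e1]
        exact ih x hx
    have hneg : ∀ (n : ℕ) (x : G), x ∈ M → g ^ (n : ℤ) * x * g ^ (-(n : ℤ)) ∈ M := by
      intro n
      induction n with
      | zero => intro x hx; simpa using hx
      | succ n ih =>
        intro x hx
        have h1 := (hMg _).1 (ih x hx)
        have e1 : g * (g ^ (n : ℤ) * x * g ^ (-(n : ℤ))) * g⁻¹ =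
            g ^ ((n + 1 : ℕ) : ℤ) * x * g ^ (-((n + 1 : ℕ) : ℤ)) := by
          push_cast
          rw [neg_add, add_comm (n : ℤ) 1, zpow_add g 1, zpow_one, zpow_add, zpow_neg_one]
          simp only [mul_assoc]
        rwa [e1] at h1
    intro n x hx
    cases n with
    | ofNat n => exact hnat n x hx
    | negSucc n =>
      have h1 := hneg (n + 1) x hx
      rw [Int.negSucc_eq, neg_neg]
      push_cast at h1
      exact h1
  obtain ⟨F, hF⟩ : ∃ F : M →* (Multiplicative ℤ → H), ∀ x n, F x n =
      φ ⟨_, hzp (Multiplicative.toAdd n) x x.2⟩ := by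
    refine ⟨MonoidHom.mk' (fun x n => φ ⟨_, hzp (Multiplicative.toAdd n) x x.2⟩) ?_,
      fun x n => rfl⟩
    intro x y
    funext n
    rw [Pi.mul_apply, ← map_mul]
    congr 1
    apply Subtype.ext
    show g ^ (-(Multiplicative.toAdd n)) * ((x : G) * (y : G)) * g ^ (Multiplicative.toAdd n) =
      (g ^ (-(Multiplicative.toAdd n)) * (x : G) * g ^ (Multiplicative.toAdd n)) *
      (g ^ (-(Multiplicative.toAdd n)) * (y : G) * g ^ (Multiplicative.toAdd n))
    rw [zpow_neg]
    group
  refine Or.inl ⟨UW H, inferInstance, (SemidirectProduct.inl.comp F).comp (Subgroup.inclusion hle),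
    SemidirectProduct.inr (Multiplicative.ofAdd (1 : ℤ)), hUW, ?_, ?_⟩
  · rw [injective_iff_map_eq_one]
    intro x hx
    have h1 : F (Subgroup.inclusion hle x) = 1 := SemidirectProduct.inl_injective
      (hx.trans (map_one _).symm)
    have h2 := congrFun h1 1
    rw [hF] at h2
    have h3 : (⟨_, hzp (Multiplicative.toAdd (1 : Multiplicative ℤ))
        (Subgroup.inclusion hle x) (Subgroup.inclusion hle x).2⟩ : M) =
        Subgroup.inclusion hle x := by
      apply Subtype.ext
      simp
    rw [h3] at h2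
    have h4 := hφ _ x.2 h2
    exact Subgroup.inclusion_injective hle (h4.trans (map_one _).symm)
  · intro x y _ hy
    show SemidirectProduct.inl (F (Subgroup.inclusion hle y)) =
      SemidirectProduct.inr (Multiplicative.ofAdd (1 : ℤ)) *
        SemidirectProduct.inl (F (Subgroup.inclusion hle x)) *
        (SemidirectProduct.inr (Multiplicative.ofAdd (1 : ℤ)))⁻¹
    rw [← map_inv, ← SemidirectProduct.inl_aut]
    congr 1
    funext n
    show _ = F (Subgroup.inclusion hle x) ((Multiplicative.ofAdd (1 : ℤ))⁻¹ • n)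
    rw [hF, hF]
    congr 1
    apply Subtype.ext
    show g ^ (-(Multiplicative.toAdd n)) * (y : G) * g ^ (Multiplicative.toAdd n) =
      g ^ (-(Multiplicative.toAdd ((Multiplicative.ofAdd (1 : ℤ))⁻¹ • n))) * (x : G) *
        g ^ (Multiplicative.toAdd ((Multiplicative.ofAdd (1 : ℤ))⁻¹ • n))
    have h5 : Multiplicative.toAdd ((Multiplicative.ofAdd (1 : ℤ))⁻¹ • n) =
        Multiplicative.toAdd n - 1 := by
      rw [smul_eq_mul, toAdd_mul, toAdd_inv, toAdd_ofAdd]
      ring
    rw [h5, hy, neg_sub, zpow_sub, zpow_sub, zpow_one, zpow_neg]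
    group

end Q181.MCL
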